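import Pool.Agent.NPC.Defs

/-!
# The red-blue cut problem in directed graphs
-/

namespace Pool.Agent.H379Z.RB

/-- An instance: the list of vertices, the list of red arcs and the list of blue arcs (an arc is
the pair of its tail and its head); the budgets `r` and `b`. -/
abbrev DInst : Type := (List ℕ × List (ℕ × ℕ) × List (ℕ × ℕ)) × (ℕ × ℕ)

/-- The vertices. -/
def DInst.V (I : DInst) : List ℕ := I.1.1
/-- The red arcs. -/
def DInst.red (I : DInst) : List (ℕ × ℕ) := I.1.2.1
/-- The blue arcs. -/
def DInst.blue (I : DInst) : List (ℕ × ℕ) := I.1.2.2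
/-- The budget for red arcs. -/
def DInst.r (I : DInst) : ℕ := I.2.1
/-- The budget for blue arcs. -/
def DInst.b (I : DInst) : ℕ := I.2.2

/-- `V` lists the vertices and `A` the arcs of a finite simple digraph: vertices are listed once,
arcs join two distinct vertices, no arc is listed twice. -/
def IsDigraph (V : List ℕ) (A : List (ℕ × ℕ)) : Prop :=
  V.Nodup ∧ (∀ e ∈ A, e.1 ∈ V ∧ e.2 ∈ V ∧ e.1 ≠ e.2) ∧ A.Nodup

/-- The number of arcs in the list `A` with tail in `X` and head outside `X`. -/
def outSize (A : List (ℕ × ℕ)) (X : Finset ℕ) : ℕ :=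
  A.countP (fun e => decide (e.1 ∈ X) && decide (e.2 ∉ X))

/-- The red and the blue arcs together form a finite simple digraph on the listed vertices (so
that every arc has exactly one colour), and for some nonempty proper subset `X` of the vertex set,
at most `r` red and at most `b` blue arcs leave `X`. -/
def DirRedBlueCut (I : DInst) : Prop :=
  IsDigraph I.V (I.red ++ I.blue) ∧
    ∃ X : Finset ℕ, (∀ v ∈ X, v ∈ I.V) ∧ X.Nonempty ∧ (∃ v ∈ I.V, v ∉ X) ∧
      outSize I.red X ≤ I.r ∧ outSize I.blue X ≤ I.b

end Pool.Agent.H379Z.RB
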