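import Pool.Agent.H379Z.RB.Defs
import Pool.Agent.H634R2.Clique
import Pool.Agent.NPC.Dec

/-!
# Hardness of the red-blue cut problem: reduction from the clique problem
-/

namespace Pool.Agent.H379Z.RB

open Pool.Agent.NPC Pool.Agent.NPC.H634R2

/-- the three red edges at the vertex of an edge -/
def gad (p : (ℕ × ℕ) × ℕ) : List (ℕ × ℕ) :=
  [(0, 2 * p.2 + 3), (2 * p.2 + 3, 2 * p.1.1 + 2), (2 * p.2 + 3, 2 * p.1.2 + 2)]

def rV (V : List ℕ) (E : List (ℕ × ℕ)) : List ℕ :=
  0 :: 1 :: (V.map (fun v => 2 * v + 2) ++ E.zipIdx.map (fun p => 2 * p.2 + 3))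

def rR (E : List (ℕ × ℕ)) : List (ℕ × ℕ) := E.zipIdx.flatMap gad

def rB (V : List ℕ) : List (ℕ × ℕ) := V.map (fun v => (2 * v + 2, 1))

def noInst : Inst := (([], [], []), (0, 0), (0, 0))

def red (J : (List ℕ × List (ℕ × ℕ)) × ℕ) : Inst :=
  if J.2 * (J.2 - 1) / 2 ≤ J.1.2.length then
    ((rV J.1.1 J.1.2, rR J.1.2, rB J.1.1), (0, 1), (J.1.2.length - J.2 * (J.2 - 1) / 2, J.2))
  else noInst

theorem red_poly : Poly red := by
  have hV : Poly (fun J : (List ℕ × List (ℕ × ℕ)) × ℕ => J.1.1) := Poly.fst (Poly.fst Poly.id)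
  have hE : Poly (fun J : (List ℕ × List (ℕ × ℕ)) × ℕ => J.1.2) := Poly.snd (Poly.fst Poly.id)
  have hk : Poly (fun J : (List ℕ × List (ℕ × ℕ)) × ℕ => J.2) := Poly.snd Poly.id
  have hc : Poly (fun J : (List ℕ × List (ℕ × ℕ)) × ℕ => J.2 * (J.2 - 1) / 2) :=
    Poly.div (Poly.mul hk (Poly.sub hk (NPC.Poly.const 1))) (NPC.Poly.const 2)
  have hZ : Poly (fun J : (List ℕ × List (ℕ × ℕ)) × ℕ => J.1.2.zipIdx) := Poly.zipIdx hE
  have hw : Poly (fun q : ((List ℕ × List (ℕ × ℕ)) × ℕ) × ((ℕ × ℕ) × ℕ) => 2 * q.2.2 + 3) :=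
    Poly.add (Poly.mul (NPC.Poly.const 2) (Poly.snd (Poly.snd Poly.id))) (NPC.Poly.const 3)
  have ha : Poly (fun q : ((List ℕ × List (ℕ × ℕ)) × ℕ) × ((ℕ × ℕ) × ℕ) => 2 * q.2.1.1 + 2) :=
    Poly.add (Poly.mul (NPC.Poly.const 2) (Poly.fst (Poly.fst (Poly.snd Poly.id)))) (NPC.Poly.const 2)
  have hb : Poly (fun q : ((List ℕ × List (ℕ × ℕ)) × ℕ) × ((ℕ × ℕ) × ℕ) => 2 * q.2.1.2 + 2) :=
    Poly.add (Poly.mul (NPC.Poly.const 2) (Poly.snd (Poly.fst (Poly.snd Poly.id)))) (NPC.Poly.const 2)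
  have hv : Poly (fun q : ((List ℕ × List (ℕ × ℕ)) × ℕ) × ℕ => 2 * q.2 + 2) :=
    Poly.add (Poly.mul (NPC.Poly.const 2) (Poly.snd Poly.id)) (NPC.Poly.const 2)
  have h1 : Poly (fun J : (List ℕ × List (ℕ × ℕ)) × ℕ => rV J.1.1 J.1.2) :=
    Poly.cons (NPC.Poly.const 0) (Poly.cons (NPC.Poly.const 1) (Poly.append
      (NPC.Poly.map (F := fun _ (v : ℕ) => 2 * v + 2) hV hv)
      (NPC.Poly.map (F := fun _ (p : (ℕ × ℕ) × ℕ) => 2 * p.2 + 3) hZ hw)))
  have h2 : Poly (fun J : (List ℕ × List (ℕ × ℕ)) × ℕ => rR J.1.2) :=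
    Poly.flatMap (F := fun _ (p : (ℕ × ℕ) × ℕ) => gad p) hZ
      (Poly.cons (Poly.pair (NPC.Poly.const 0) hw) (Poly.cons (Poly.pair hw ha)
        (Poly.cons (Poly.pair hw hb) (NPC.Poly.const []))))
  have h3 : Poly (fun J : (List ℕ × List (ℕ × ℕ)) × ℕ => rB J.1.1) :=
    NPC.Poly.map (F := fun _ (v : ℕ) => ((2 * v + 2, 1) : ℕ × ℕ)) hV (Poly.pair hv (NPC.Poly.const 1))
  exact Poly.ite (p := fun J : (List ℕ × List (ℕ × ℕ)) × ℕ => J.2 * (J.2 - 1) / 2 ≤ J.1.2.length)
    (Poly.decide_le hc (Poly.length hE))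
    (Poly.pair (Poly.pair h1 (Poly.pair h2 h3)) (Poly.pair (NPC.Poly.const (0, 1))
      (Poly.pair (Poly.sub (Poly.length hE) hc) hk))) (NPC.Poly.const noInst)

theorem zipIdx_snd_pairwise (E : List (ℕ × ℕ)) :
    E.zipIdx.Pairwise (fun p q => p.2 ≠ q.2) := by
  have h : (E.zipIdx.map Prod.snd).Nodup := by
    rw [List.zipIdx_map_snd]
    exact List.nodup_range' 1
  exact List.pairwise_map.1 h

theorem mem_of_zipIdx {E : List (ℕ × ℕ)} {p : (ℕ × ℕ) × ℕ} (h : p ∈ E.zipIdx) : p.1 ∈ E := by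
  have := List.mem_map_of_mem (f := Prod.fst) h
  rwa [List.zipIdx_map_fst] at this

theorem zipIdx_inj {E : List (ℕ × ℕ)} {p q : (ℕ × ℕ) × ℕ} (hp : p ∈ E.zipIdx) (hq : q ∈ E.zipIdx)
    (h : p.2 = q.2) : p = q := by
  obtain ⟨a, i⟩ := p
  obtain ⟨b, j⟩ := q
  simp only at h
  subst h
  rw [List.mem_zipIdx_iff_getElem?] at hp hq
  simp only at hp hq
  rw [hp] at hq
  simp only [Option.some.injEq] at hq
  rw [hq]

theorem isGraph_red {V : List ℕ} {E : List (ℕ × ℕ)} (h : IsGraph V E) :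
    IsGraph (rV V E) (rR E ++ rB V) := by
  obtain ⟨hV, hE, -⟩ := h
  refine ⟨?_, ?_, ?_⟩
  · unfold rV
    rw [List.nodup_cons, List.nodup_cons, List.nodup_append]
    refine ⟨?_, ?_, ?_, ?_, ?_⟩
    · simp
    · simp only [List.mem_append, List.mem_map, not_or, not_exists, not_and]
      exact ⟨fun x _ => by omega, fun x _ => by omega⟩
    · exact hV.map (fun a b hab => by simpa using hab)
    · rw [List.Nodup, List.pairwise_map]
      exact (zipIdx_snd_pairwise E).imp (fun h => by omega)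
    · intro a ha b hb
      simp only [List.mem_map] at ha hb
      obtain ⟨x, _, rfl⟩ := ha
      obtain ⟨y, _, rfl⟩ := hb
      omega
  · intro e he
    have hm0 : 0 ∈ rV V E := by simp [rV]
    have hm1 : 1 ∈ rV V E := by simp [rV]
    have hm2 : ∀ v ∈ V, 2 * v + 2 ∈ rV V E := fun v hv => by
      unfold rV
      exact List.mem_cons_of_mem _ (List.mem_cons_of_mem _ (List.mem_append_left _
        (List.mem_map_of_mem (f := fun v => 2 * v + 2) hv)))
    have hm3 : ∀ p ∈ E.zipIdx, 2 * p.2 + 3 ∈ rV V E := fun p hp => by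
      unfold rV
      exact List.mem_cons_of_mem _ (List.mem_cons_of_mem _ (List.mem_append_right _
        (List.mem_map_of_mem (f := fun p : (ℕ × ℕ) × ℕ => 2 * p.2 + 3) hp)))
    rcases List.mem_append.1 he with he | he
    · obtain ⟨p, hp, he⟩ := List.mem_flatMap.1 he
      have h1 := hE _ (mem_of_zipIdx hp)
      simp only [gad, List.mem_cons, List.not_mem_nil, or_false] at he
      rcases he with rfl | rfl | rfl
      · exact ⟨hm0, hm3 p hp, by simp⟩
      · exact ⟨hm3 p hp, hm2 _ h1.1, by simp only; omega⟩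
      · exact ⟨hm3 p hp, hm2 _ h1.2.1, by simp only; omega⟩
    · obtain ⟨v, hv, rfl⟩ := List.mem_map.1 he
      exact ⟨hm2 v hv, hm1, by simp⟩
  · rw [List.map_append, List.nodup_append]
    refine ⟨?_, ?_, ?_⟩
    · unfold rR
      rw [List.map_flatMap, List.nodup_flatMap]
      refine ⟨fun p hp => ?_, ?_⟩
      · have h1 := (hE _ (mem_of_zipIdx hp)).2.2
        simp only [gad, List.map_cons, List.map_nil, List.nodup_cons, List.mem_cons,
          List.not_mem_nil, or_false, Sym2.eq_iff, not_false_eq_true, List.nodup_nil, and_true]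
        omega
      · refine (zipIdx_snd_pairwise E).imp (fun {p q} hpq => ?_)
        intro x hx hy
        simp only [gad, List.map_cons, List.map_nil, List.mem_cons, List.not_mem_nil,
          or_false] at hx hy
        rcases hx with rfl | rfl | rfl <;> simp only [Sym2.eq_iff] at hy <;> omega
    · unfold rB
      rw [List.map_map]
      refine hV.map (fun a b hab => ?_)
      simp only [Function.comp, Sym2.eq_iff] at hab
      omega
    · intro a ha b hb
      obtain ⟨e, he, rfl⟩ := List.mem_map.1 ha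
      obtain ⟨f, hf, rfl⟩ := List.mem_map.1 hb
      obtain ⟨p, hp, he⟩ := List.mem_flatMap.1 he
      obtain ⟨v, hv, rfl⟩ := List.mem_map.1 hf
      simp only [gad, List.mem_cons, List.not_mem_nil, or_false] at he
      rcases he with rfl | rfl | rfl <;> simp only [ne_eq, Sym2.eq_iff] <;> omega

theorem cutSize_append (E F : List (ℕ × ℕ)) (X : Finset ℕ) :
    cutSize (E ++ F) X = cutSize E X + cutSize F X := by
  simp [cutSize]

/-- lower bound for the red part of any cut -/
theorem red_lower (X U : Finset ℕ) (h0 : 0 ∈ X) (l : List ((ℕ × ℕ) × ℕ))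
    (hU : ∀ p ∈ l, (2 * p.1.1 + 2 ∈ X → p.1.1 ∈ U) ∧ (2 * p.1.2 + 2 ∈ X → p.1.2 ∈ U)) :
    l.length ≤ cutSize (l.flatMap gad) X + inside (l.map Prod.fst) U := by
  induction l with
  | nil => simp
  | cons p l ih =>
    have ih' := ih (fun q hq => hU q (List.mem_cons_of_mem _ hq))
    obtain ⟨h1, h2⟩ := hU p List.mem_cons_self
    rw [List.flatMap_cons, cutSize_append]
    have h3 : 1 ≤ cutSize (gad p) X + inside [p.1] U := by
      by_cases a : 2 * p.1.1 + 2 ∈ X <;> by_cases b : 2 * p.1.2 + 2 ∈ X <;>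
        by_cases c : 2 * p.2 + 3 ∈ X <;>
        simp_all [cutSize, gad, inside, List.countP_cons] <;> omega
    have h4 : inside ((p :: l).map Prod.fst) U = inside [p.1] U + inside (l.map Prod.fst) U := by
      simp [inside, List.countP_cons, add_comm]
    rw [h4, List.length_cons]
    omega

/-- upper bound for the red part of a good cut -/
theorem red_upper (X U : Finset ℕ) (h0 : 0 ∈ X) (l : List ((ℕ × ℕ) × ℕ))
    (hU : ∀ v, 2 * v + 2 ∈ X ↔ v ∈ U)
    (hW : ∀ p ∈ l, (2 * p.2 + 3 ∈ X ↔ (p.1.1 ∈ U ∨ p.1.2 ∈ U))) :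
    cutSize (l.flatMap gad) X + inside (l.map Prod.fst) U = l.length := by
  induction l with
  | nil => simp [cutSize, inside]
  | cons p l ih =>
    have ih' := ih (fun q hq => hW q (List.mem_cons_of_mem _ hq))
    have h1 := hW p List.mem_cons_self
    rw [List.flatMap_cons, cutSize_append]
    have h3 : cutSize (gad p) X + inside [p.1] U = 1 := by
      by_cases a : p.1.1 ∈ U <;> by_cases b : p.1.2 ∈ U <;>
        simp_all [cutSize, gad, inside]
    have h4 : inside ((p :: l).map Prod.fst) U = inside [p.1] U + inside (l.map Prod.fst) U := by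
      simp [inside, List.countP_cons, add_comm]
    rw [h4, List.length_cons]
    omega

theorem blue_eq {V : List ℕ} (hV : V.Nodup) (X : Finset ℕ) (h1 : 1 ∉ X) :
    cutSize (rB V) X = (V.toFinset.filter (fun v => 2 * v + 2 ∈ X)).card := by
  unfold cutSize rB
  rw [List.countP_map, List.countP_eq_length_filter,
    ← List.toFinset_card_of_nodup (hV.filter _), List.toFinset_filter]
  congr 1
  ext v
  simp [h1]

theorem inside_le_length (E : List (ℕ × ℕ)) (U : Finset ℕ) : inside E U ≤ E.length :=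
  List.countP_le_length

theorem red_correct (J : (List ℕ × List (ℕ × ℕ)) × ℕ) (hJ : IsGraph J.1.1 J.1.2 ∧ 2 ≤ J.2) :
    CLIQUE J ↔ RedBlueCut (red J) := by
  obtain ⟨⟨V, E⟩, k⟩ := J
  obtain ⟨hG, hk⟩ := hJ
  simp only at hG hk
  unfold CLIQUE
  simp only
  rw [hasClique_iff hG hk, Nat.choose_two_right]
  unfold red
  simp only
  split_ifs with hc
  · constructor
    · rintro ⟨-, U, hUV, hcard, hU⟩
      refine ⟨isGraph_red hG, by simp [Inst.s, Inst.V, rV], by simp [Inst.t, Inst.V, rV],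
        by simp [Inst.s, Inst.t], ?_⟩
      let X : Finset ℕ := insert 0 (U.image (fun v => 2 * v + 2) ∪
        ((E.zipIdx.filter (fun p => decide (p.1.1 ∈ U ∨ p.1.2 ∈ U))).map
          (fun p => 2 * p.2 + 3)).toFinset)
      have hX : ∀ x, x ∈ X ↔ x = 0 ∨ (∃ v ∈ U, 2 * v + 2 = x) ∨
          ∃ p ∈ E.zipIdx, (p.1.1 ∈ U ∨ p.1.2 ∈ U) ∧ 2 * p.2 + 3 = x := by
        intro x
        simp only [X, Finset.mem_insert, Finset.mem_union, Finset.mem_image, List.mem_toFinset,
          List.mem_map, List.mem_filter, decide_eq_true_eq, and_assoc]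
      have h0 : 0 ∈ X := (hX 0).2 (Or.inl rfl)
      have h1 : 1 ∉ X := by
        rw [hX]
        rintro (h | ⟨v, _, h⟩ | ⟨p, _, _, h⟩) <;> omega
      have h2 : ∀ v, 2 * v + 2 ∈ X ↔ v ∈ U := by
        intro v
        rw [hX]
        constructor
        · rintro (h | ⟨w, hw, h⟩ | ⟨p, _, _, h⟩)
          · omega
          · have : w = v := by omega
            exact this ▸ hw
          · omega
        · intro hv
          exact Or.inr (Or.inl ⟨v, hv, rfl⟩)
      have h3 : ∀ p ∈ E.zipIdx, (2 * p.2 + 3 ∈ X ↔ (p.1.1 ∈ U ∨ p.1.2 ∈ U)) := by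
        intro p hp
        rw [hX]
        constructor
        · rintro (h | ⟨w, hw, h⟩ | ⟨q, hq, hq', h⟩)
          · omega
          · omega
          · have : q = p := zipIdx_inj hq hp (by omega)
            exact this ▸ hq'
        · intro hv
          exact Or.inr (Or.inr ⟨p, hp, hv, rfl⟩)
      refine ⟨X, ?_, h0, h1, ?_, ?_⟩
      · intro x hx
        rcases (hX x).1 hx with rfl | ⟨v, hv, rfl⟩ | ⟨p, hp, _, rfl⟩
        · simp [Inst.V, rV]
        · exact List.mem_cons_of_mem _ (List.mem_cons_of_mem _ (List.mem_append_left _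
            (List.mem_map_of_mem (f := fun v => 2 * v + 2) (hUV v hv))))
        · exact List.mem_cons_of_mem _ (List.mem_cons_of_mem _ (List.mem_append_right _
            (List.mem_map_of_mem (f := fun p : (ℕ × ℕ) × ℕ => 2 * p.2 + 3) hp)))
      · have h4 := red_upper X U h0 E.zipIdx h2 h3
        rw [List.zipIdx_map_fst, List.length_zipIdx] at h4
        change cutSize (E.zipIdx.flatMap gad) X ≤ E.length - k * (k - 1) / 2
        omega
      · change cutSize (rB V) X ≤ k
        rw [blue_eq hG.1 X h1]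
        refine le_trans (Finset.card_le_card ?_) hcard
        intro v hv
        exact (h2 v).1 (Finset.mem_filter.1 hv).2
    · rintro ⟨-, -, -, -, X, -, h0, h1, hr, hb⟩
      change cutSize (E.zipIdx.flatMap gad) X ≤ E.length - k * (k - 1) / 2 at hr
      change cutSize (rB V) X ≤ k at hb
      change 0 ∈ X at h0
      change 1 ∉ X at h1
      rw [blue_eq hG.1 X h1] at hb
      refine ⟨hG, V.toFinset.filter (fun v => 2 * v + 2 ∈ X), ?_, hb, ?_⟩
      · intro v hv
        exact List.mem_toFinset.1 (Finset.mem_filter.1 hv).1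
      · have h4 := red_lower X (V.toFinset.filter (fun v => 2 * v + 2 ∈ X)) h0 E.zipIdx
          (fun p hp => by
            have h5 := hG.2.1 _ (mem_of_zipIdx hp)
            exact ⟨fun h => Finset.mem_filter.2 ⟨List.mem_toFinset.2 h5.1, h⟩,
              fun h => Finset.mem_filter.2 ⟨List.mem_toFinset.2 h5.2.1, h⟩⟩)
        rw [List.zipIdx_map_fst, List.length_zipIdx] at h4
        omega
  · constructor
    · rintro ⟨-, U, -, -, hU⟩
      have := inside_le_length E U
      omega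
    · rintro ⟨-, -, -, h, -⟩
      exact absurd rfl h

theorem hardI_redBlueCut : HardI RedBlueCut :=
  (hardPr_CLIQUE.trans (Pr' := fun _ => True) red_poly (fun _ _ => trivial) red_correct).toHardI

theorem npHard_redBlueCut : NPHardP RedBlueCut := hardI_redBlueCut.toNPHardP

end Pool.Agent.H379Z.RB
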