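import Pool.Agent.H379Z.RB.Defs
import Pool.Agent.NPC.Dec

/-!
# The red-blue cut problem is in NP
-/

namespace Pool.Agent.H379Z.RB

open Pool.Agent.NPC Pool.Agent.NPC.H634R2

def ndB (l : List ℕ) : Bool := l.all (fun x => decide ((l.filter (fun y => decide (y = x))).length ≤ 1))

theorem ndB_iff (l : List ℕ) : ndB l = true ↔ l.Nodup := by
  rw [List.nodup_iff_count_le_one]
  unfold ndB
  simp only [List.all_eq_true, decide_eq_true_eq]
  have h : ∀ x, (l.filter (fun y => decide (y = x))).length = l.count x := by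
    intro x
    rw [List.count_eq_countP, List.countP_eq_length_filter]
    congr 1
  simp only [h]
  constructor
  · intro h1 x
    by_cases hx : x ∈ l
    · exact h1 x hx
    · rw [List.count_eq_zero_of_not_mem hx]; omega
  · intro h1 x _
    exact h1 x

def same (e f : ℕ × ℕ) : Bool :=
  (decide (f.1 = e.1) && decide (f.2 = e.2)) || (decide (f.1 = e.2) && decide (f.2 = e.1))

def ndE (l : List (ℕ × ℕ)) : Bool :=
  l.all (fun e => decide ((l.filter (fun f => same e f)).length ≤ 1))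

theorem ndE_iff (l : List (ℕ × ℕ)) : ndE l = true ↔ (l.map (fun e => s(e.1, e.2))).Nodup := by
  rw [List.nodup_iff_count_le_one]
  unfold ndE
  simp only [List.all_eq_true, decide_eq_true_eq]
  have h : ∀ e : ℕ × ℕ, (l.filter (fun f => same e f)).length =
      (l.map (fun e => s(e.1, e.2))).count s(e.1, e.2) := by
    intro e
    rw [List.count_eq_countP, List.countP_map, List.countP_eq_length_filter]
    congr 1
    apply List.filter_congr
    intro f _
    simp only [same, Function.comp, beq_eq_decide, Sym2.eq_iff, Bool.decide_or, Bool.decide_and]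
  simp only [h]
  constructor
  · intro h1 x
    by_cases hx : x ∈ l.map (fun e => s(e.1, e.2))
    · obtain ⟨e, he, rfl⟩ := List.mem_map.1 hx
      exact h1 e he
    · rw [List.count_eq_zero_of_not_mem hx]; omega
  · intro h1 x _
    exact h1 _

def okE (V : List ℕ) (l : List (ℕ × ℕ)) : Bool :=
  l.all (fun e => decide (e.1 ∈ V) && (decide (e.2 ∈ V) && !decide (e.1 = e.2)))

def cutL (E : List (ℕ × ℕ)) (W : List ℕ) : ℕ :=
  (E.filter (fun e => xor (decide (e.1 ∈ W)) (decide (e.2 ∈ W)))).length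

theorem cutL_eq (E : List (ℕ × ℕ)) (W : List ℕ) : cutL E W = cutSize E W.toFinset := by
  unfold cutL cutSize
  rw [List.countP_eq_length_filter]
  simp only [List.mem_toFinset]

/-- the verifier -/
def chk (q : Inst × List ℕ) : Bool :=
  (ndB q.1.V && (okE q.1.V (q.1.red ++ q.1.blue) && ndE (q.1.red ++ q.1.blue))) &&
  ((decide (q.1.s ∈ q.1.V) && (decide (q.1.t ∈ q.1.V) && !decide (q.1.s = q.1.t))) &&
  ((q.2.all (fun v => decide (v ∈ q.1.V)) && (decide (q.1.s ∈ q.2) && !decide (q.1.t ∈ q.2))) &&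
  (decide (cutL q.1.red q.2 ≤ q.1.r) && decide (cutL q.1.blue q.2 ≤ q.1.b))))

section

variable {α : Type} [TEnc α]

theorem ndB_poly {l : α → List ℕ} (hl : NPC.Poly l) : NPC.Poly (fun a => ndB (l a)) :=
  Poly.all (p := fun a x => decide (((l a).filter (fun y => decide (y = x))).length ≤ 1)) hl
    (Poly.decide_le (Poly.length (Poly.filter (l := fun q : α × ℕ => l q.1)
      (p := fun (q : α × ℕ) y => decide (y = q.2)) (hl.comp (Poly.fst Poly.id))
      (Poly.decide_eq (Poly.snd Poly.id) (Poly.snd (Poly.fst Poly.id))))) (NPC.Poly.const 1))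

theorem same_poly {e f : α → ℕ × ℕ} (he : NPC.Poly e) (hf : NPC.Poly f) :
    NPC.Poly (fun a => same (e a) (f a)) :=
  Poly.or (Poly.and (Poly.decide_eq (Poly.fst hf) (Poly.fst he))
      (Poly.decide_eq (Poly.snd hf) (Poly.snd he)))
    (Poly.and (Poly.decide_eq (Poly.fst hf) (Poly.snd he))
      (Poly.decide_eq (Poly.snd hf) (Poly.fst he)))

theorem ndE_poly {l : α → List (ℕ × ℕ)} (hl : NPC.Poly l) : NPC.Poly (fun a => ndE (l a)) :=
  Poly.all (p := fun a e => decide (((l a).filter (fun f => same e f)).length ≤ 1)) hl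
    (Poly.decide_le (Poly.length (Poly.filter (l := fun q : α × (ℕ × ℕ) => l q.1)
      (p := fun (q : α × (ℕ × ℕ)) f => same q.2 f) (hl.comp (Poly.fst Poly.id))
      (same_poly (Poly.snd (Poly.fst Poly.id)) (Poly.snd Poly.id)))) (NPC.Poly.const 1))

theorem okE_poly {V : α → List ℕ} {l : α → List (ℕ × ℕ)} (hV : NPC.Poly V) (hl : NPC.Poly l) :
    NPC.Poly (fun a => okE (V a) (l a)) :=
  Poly.all (p := fun a (e : ℕ × ℕ) =>
      decide (e.1 ∈ V a) && (decide (e.2 ∈ V a) && !decide (e.1 = e.2))) hl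
    (Poly.and (Poly.decide_mem (Poly.fst (Poly.snd Poly.id)) (hV.comp (Poly.fst Poly.id)))
      (Poly.and (Poly.decide_mem (Poly.snd (Poly.snd Poly.id)) (hV.comp (Poly.fst Poly.id)))
        (Poly.not (Poly.decide_eq (Poly.fst (Poly.snd Poly.id)) (Poly.snd (Poly.snd Poly.id))))))

theorem cutL_poly {W : α → List ℕ} {l : α → List (ℕ × ℕ)} (hl : NPC.Poly l) (hW : NPC.Poly W) :
    NPC.Poly (fun a => cutL (l a) (W a)) :=
  Poly.length (Poly.filter (p := fun a (e : ℕ × ℕ) =>
      xor (decide (e.1 ∈ W a)) (decide (e.2 ∈ W a))) hl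
    (Poly.xor (Poly.decide_mem (Poly.fst (Poly.snd Poly.id)) (hW.comp (Poly.fst Poly.id)))
      (Poly.decide_mem (Poly.snd (Poly.snd Poly.id)) (hW.comp (Poly.fst Poly.id)))))

end

theorem chk_poly : NPC.Poly chk := by
  have hV : NPC.Poly (fun q : Inst × List ℕ => q.1.V) := Poly.fst (Poly.fst (Poly.fst Poly.id))
  have hR : NPC.Poly (fun q : Inst × List ℕ => q.1.red) :=
    Poly.fst (Poly.snd (Poly.fst (Poly.fst Poly.id)))
  have hB : NPC.Poly (fun q : Inst × List ℕ => q.1.blue) :=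
    Poly.snd (Poly.snd (Poly.fst (Poly.fst Poly.id)))
  have hs : NPC.Poly (fun q : Inst × List ℕ => q.1.s) :=
    Poly.fst (Poly.fst (Poly.snd (Poly.fst Poly.id)))
  have ht : NPC.Poly (fun q : Inst × List ℕ => q.1.t) :=
    Poly.snd (Poly.fst (Poly.snd (Poly.fst Poly.id)))
  have hr : NPC.Poly (fun q : Inst × List ℕ => q.1.r) :=
    Poly.fst (Poly.snd (Poly.snd (Poly.fst Poly.id)))
  have hb : NPC.Poly (fun q : Inst × List ℕ => q.1.b) :=
    Poly.snd (Poly.snd (Poly.snd (Poly.fst Poly.id)))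
  have hW : NPC.Poly (fun q : Inst × List ℕ => q.2) := Poly.snd Poly.id
  have hE := Poly.append hR hB
  refine Poly.and (Poly.and (ndB_poly hV) (Poly.and (okE_poly hV hE) (ndE_poly hE)))
    (Poly.and (Poly.and (Poly.decide_mem hs hV) (Poly.and (Poly.decide_mem ht hV)
      (Poly.not (Poly.decide_eq hs ht))))
    (Poly.and (Poly.and ?_ (Poly.and (Poly.decide_mem hs hW) (Poly.not (Poly.decide_mem ht hW))))
      (Poly.and (Poly.decide_le (cutL_poly hR hW) hr) (Poly.decide_le (cutL_poly hB hW) hb))))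
  exact Poly.all (p := fun (q : Inst × List ℕ) v => decide (v ∈ q.1.V)) hW
    (Poly.decide_mem (Poly.snd Poly.id) (hV.comp (Poly.fst Poly.id)))

theorem chk_iff (I : Inst) (W : List ℕ) : chk (I, W) = true ↔
    IsGraph I.V (I.red ++ I.blue) ∧ (I.s ∈ I.V ∧ I.t ∈ I.V ∧ I.s ≠ I.t) ∧
      ((∀ v ∈ W, v ∈ I.V) ∧ I.s ∈ W ∧ I.t ∉ W) ∧
      cutSize I.red W.toFinset ≤ I.r ∧ cutSize I.blue W.toFinset ≤ I.b := by
  unfold chk IsGraph
  simp only [Bool.and_eq_true, ndB_iff, ndE_iff, cutL_eq, okE, List.all_eq_true,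
    decide_eq_true_eq, Bool.not_eq_true', decide_eq_false_iff_not, ne_eq]

theorem sz_filter_le {β : Type} [TEnc β] (p : β → Bool) (l : List β) :
    sz (l.filter p) ≤ sz l := by
  induction l with
  | nil => simp
  | cons a l ih =>
    rw [List.filter_cons]
    split_ifs
    · simp only [sz_list_cons]; omega
    · simp only [sz_list_cons]; omega

theorem inNP_redBlueCut : InNPP RedBlueCut := by
  refine inNPP_of chk_poly Polynomial.X (fun I => ?_)
  simp only [Polynomial.eval_X, chk_iff]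
  constructor
  · rintro ⟨hG, hs, ht, hst, X, hXV, h1, h2, h3, h4⟩
    have hX : (I.V.filter (fun v => decide (v ∈ X))).toFinset = X := by
      ext v
      simp only [List.mem_toFinset, List.mem_filter, decide_eq_true_eq]
      exact ⟨fun h => h.2, fun h => ⟨hXV v h, h⟩⟩
    refine ⟨I.V.filter (fun v => decide (v ∈ X)), ?_, hG, ⟨hs, ht, hst⟩, ⟨?_, ?_, ?_⟩, ?_, ?_⟩
    · refine (sz_filter_le _ _).trans ?_
      obtain ⟨⟨V, R, B⟩, c⟩ := I
      simp only [Inst.V, sz_pair]
      omega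
    · intro v hv
      exact (List.mem_filter.1 hv).1
    · exact List.mem_filter.2 ⟨hs, by simpa using h1⟩
    · intro h
      exact h2 (by simpa using (List.mem_filter.1 h).2)
    · rw [hX]; exact h3
    · rw [hX]; exact h4
  · rintro ⟨W, -, hG, ⟨hs, ht, hst⟩, ⟨h1, h2, h3⟩, h4, h5⟩
    exact ⟨hG, hs, ht, hst, W.toFinset, fun v hv => h1 v (List.mem_toFinset.1 hv),
      List.mem_toFinset.2 h2, fun h => h3 (List.mem_toFinset.1 h), h4, h5⟩

end Pool.Agent.H379Z.RB
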