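import Pool.Agent.H379Z.RB.DDefs
import Pool.Agent.H379Z.RB.Hard
import Pool.Agent.H379Z.RB.Mem

/-!
# Hardness of the directed red-blue cut problem
-/

namespace Pool.Agent.H379Z.RB

open Pool.Agent.NPC Pool.Agent.NPC.H634R2

def bid (E : List (ℕ × ℕ)) : List (ℕ × ℕ) :=
  E.flatMap (fun e => [(3 * e.1, 3 * e.2), (3 * e.2, 3 * e.1)])

def dV (V : List ℕ) (N : ℕ) : List ℕ :=
  V.map (fun v => 3 * v) ++ ((List.range N).map (fun i => 3 * i + 1) ++
    (List.range N).map (fun i => 3 * i + 2))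

def hv (s t x y : ℕ) : Bool :=
  !decide (x = y) && (((decide (y % 3 = 1) || decide (y = 3 * s)) ||
    (decide (x % 3 = 2) || decide (x = 3 * t))) && !(decide (x % 3 = 0) && decide (y % 3 = 0)))

def heavy (W : List ℕ) (s t : ℕ) : List (ℕ × ℕ) :=
  W.flatMap (fun x => (W.filter (fun y => hv s t x y)).map (fun y => (x, y)))

def validB (I : Inst) : Bool :=
  (ndB I.V && (okE I.V (I.red ++ I.blue) && ndE (I.red ++ I.blue))) &&
  (decide (I.s ∈ I.V) && (decide (I.t ∈ I.V) && !decide (I.s = I.t)))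

def dred (I : Inst) : DInst :=
  bif validB I then
    ((dV I.V (I.red.length + 2), heavy (dV I.V (I.red.length + 2)) I.s I.t ++ bid I.red,
      bid I.blue), (min I.r I.red.length, I.b))
  else (([], [], []), (0, 0))

theorem validB_iff (I : Inst) : validB I = true ↔
    IsGraph I.V (I.red ++ I.blue) ∧ I.s ∈ I.V ∧ I.t ∈ I.V ∧ I.s ≠ I.t := by
  unfold validB IsGraph
  simp only [Bool.and_eq_true, ndB_iff, ndE_iff, okE, List.all_eq_true,
    decide_eq_true_eq, Bool.not_eq_true', decide_eq_false_iff_not, ne_eq]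

theorem bid_poly {α : Type} [TEnc α] {l : α → List (ℕ × ℕ)} (hl : NPC.Poly l) :
    NPC.Poly (fun a => bid (l a)) := by
  have h1 : NPC.Poly (fun q : α × (ℕ × ℕ) => 3 * q.2.1) :=
    Poly.mul (NPC.Poly.const 3) (Poly.fst (Poly.snd Poly.id))
  have h2 : NPC.Poly (fun q : α × (ℕ × ℕ) => 3 * q.2.2) :=
    Poly.mul (NPC.Poly.const 3) (Poly.snd (Poly.snd Poly.id))
  exact Poly.flatMap (F := fun _ (e : ℕ × ℕ) =>
      ([(3 * e.1, 3 * e.2), (3 * e.2, 3 * e.1)] : List (ℕ × ℕ))) hl
    (Poly.cons (Poly.pair h1 h2) (Poly.cons (Poly.pair h2 h1) (NPC.Poly.const [])))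

theorem hv_poly {α : Type} [TEnc α] {s t x y : α → ℕ} (hs : NPC.Poly s) (ht : NPC.Poly t)
    (hx : NPC.Poly x) (hy : NPC.Poly y) : NPC.Poly (fun a => hv (s a) (t a) (x a) (y a)) :=
  Poly.and (Poly.not (Poly.decide_eq hx hy)) (Poly.and (Poly.or
    (Poly.or (Poly.decide_eq (Poly.mod hy (NPC.Poly.const 3)) (NPC.Poly.const 1))
      (Poly.decide_eq hy (Poly.mul (NPC.Poly.const 3) hs)))
    (Poly.or (Poly.decide_eq (Poly.mod hx (NPC.Poly.const 3)) (NPC.Poly.const 2))
      (Poly.decide_eq hx (Poly.mul (NPC.Poly.const 3) ht))))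
    (Poly.not (Poly.and (Poly.decide_eq (Poly.mod hx (NPC.Poly.const 3)) (NPC.Poly.const 0))
      (Poly.decide_eq (Poly.mod hy (NPC.Poly.const 3)) (NPC.Poly.const 0)))))

theorem heavy_poly {α : Type} [TEnc α] {W : α → List ℕ} {s t : α → ℕ} (hW : NPC.Poly W)
    (hs : NPC.Poly s) (ht : NPC.Poly t) : NPC.Poly (fun a => heavy (W a) (s a) (t a)) := by
  refine Poly.flatMap (F := fun a (x : ℕ) =>
    ((W a).filter (fun y => hv (s a) (t a) x y)).map (fun y => (x, y))) hW ?_
  refine NPC.Poly.map (F := fun (p : α × ℕ) (y : ℕ) => (p.2, y)) ?_ ?_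
  · exact Poly.filter (p := fun (p : α × ℕ) (y : ℕ) => hv (s p.1) (t p.1) p.2 y)
      (hW.comp (Poly.fst Poly.id))
      (hv_poly (hs.comp (Poly.fst (Poly.fst Poly.id))) (ht.comp (Poly.fst (Poly.fst Poly.id)))
        (Poly.snd (Poly.fst Poly.id)) (Poly.snd Poly.id))
  · exact Poly.pair (Poly.snd (Poly.fst Poly.id)) (Poly.snd Poly.id)

theorem dred_poly : NPC.Poly dred := by
  have hV : NPC.Poly (fun q : Inst => q.V) := Poly.fst (Poly.fst Poly.id)
  have hR : NPC.Poly (fun q : Inst => q.red) := Poly.fst (Poly.snd (Poly.fst Poly.id))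
  have hB : NPC.Poly (fun q : Inst => q.blue) := Poly.snd (Poly.snd (Poly.fst Poly.id))
  have hs : NPC.Poly (fun q : Inst => q.s) := Poly.fst (Poly.fst (Poly.snd Poly.id))
  have ht : NPC.Poly (fun q : Inst => q.t) := Poly.snd (Poly.fst (Poly.snd Poly.id))
  have hr : NPC.Poly (fun q : Inst => q.r) := Poly.fst (Poly.snd (Poly.snd Poly.id))
  have hb : NPC.Poly (fun q : Inst => q.b) := Poly.snd (Poly.snd (Poly.snd Poly.id))
  have hE := Poly.append hR hB
  have hval : NPC.Poly validB :=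
    Poly.and (Poly.and (ndB_poly hV) (Poly.and (okE_poly hV hE) (ndE_poly hE)))
      (Poly.and (Poly.decide_mem hs hV) (Poly.and (Poly.decide_mem ht hV)
        (Poly.not (Poly.decide_eq hs ht))))
  have hN : NPC.Poly (fun q : Inst => List.range (q.red.length + 2)) :=
    (UPoly.add (UPoly.length hR) (UPoly.const 2)).range
  have h3 : NPC.Poly (fun q : Inst × ℕ => 3 * q.2) :=
    Poly.mul (NPC.Poly.const 3) (Poly.snd Poly.id)
  have hW : NPC.Poly (fun q : Inst => dV q.V (q.red.length + 2)) :=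
    Poly.append (NPC.Poly.map (F := fun _ (v : ℕ) => 3 * v) hV h3)
      (Poly.append (NPC.Poly.map (F := fun _ (v : ℕ) => 3 * v + 1) hN
        (Poly.add h3 (NPC.Poly.const 1)))
        (NPC.Poly.map (F := fun _ (v : ℕ) => 3 * v + 2) hN (Poly.add h3 (NPC.Poly.const 2))))
  exact Poly.cond hval (Poly.pair (Poly.pair hW (Poly.pair
    (Poly.append (heavy_poly hW hs ht) (bid_poly hR)) (bid_poly hB)))
    (Poly.pair (Poly.min hr (Poly.length hR)) hb)) (NPC.Poly.const _)

theorem mem_dV {V : List ℕ} {N x : ℕ} : x ∈ dV V N ↔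
    (∃ v ∈ V, 3 * v = x) ∨ (∃ i < N, 3 * i + 1 = x) ∨ ∃ i < N, 3 * i + 2 = x := by
  simp [dV]

theorem nodup_dV {V : List ℕ} (hV : V.Nodup) (N : ℕ) : (dV V N).Nodup := by
  unfold dV
  rw [List.nodup_append, List.nodup_append]
  refine ⟨hV.map (fun a b hab => by simpa using hab),
    ⟨List.nodup_range.map (fun a b hab => by simpa using hab),
      List.nodup_range.map (fun a b hab => by simpa using hab), ?_⟩, ?_⟩
  · intro a ha b hb
    simp only [List.mem_map] at ha hb
    obtain ⟨x, _, rfl⟩ := ha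
    obtain ⟨y, _, rfl⟩ := hb
    omega
  · intro a ha b hb
    simp only [List.mem_map, List.mem_append] at ha hb
    obtain ⟨x, _, rfl⟩ := ha
    rcases hb with ⟨y, _, rfl⟩ | ⟨y, _, rfl⟩ <;> omega

theorem mem_heavy {W : List ℕ} {s t : ℕ} {e : ℕ × ℕ} : e ∈ heavy W s t ↔
    e.1 ∈ W ∧ e.2 ∈ W ∧ e.1 ≠ e.2 ∧ ((e.2 % 3 = 1 ∨ e.2 = 3 * s) ∨ (e.1 % 3 = 2 ∨ e.1 = 3 * t)) ∧
      ¬ (e.1 % 3 = 0 ∧ e.2 % 3 = 0) := by
  obtain ⟨x, y⟩ := e
  unfold heavy
  simp only [List.mem_flatMap, List.mem_map, List.mem_filter, Prod.mk.injEq, hv, Bool.and_eq_true,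
    Bool.not_eq_true', decide_eq_false_iff_not, Bool.or_eq_true, decide_eq_true_eq,
    Bool.and_eq_false_imp, ne_eq, not_and]
  constructor
  · rintro ⟨a, ha, b, ⟨hb, h1, h2, h3⟩, rfl, rfl⟩
    exact ⟨ha, hb, h1, h2, h3⟩
  · rintro ⟨ha, hb, h1, h2, h3⟩
    exact ⟨x, ha, y, ⟨hb, h1, h2, h3⟩, rfl, rfl⟩

theorem nodup_heavy {W : List ℕ} (hW : W.Nodup) (s t : ℕ) : (heavy W s t).Nodup := by
  unfold heavy
  rw [List.nodup_flatMap]
  refine ⟨fun x _ => (hW.filter _).map (fun a b hab => by simpa using hab), ?_⟩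
  refine hW.imp (fun {a b} hab => ?_)
  intro e h1 h2
  simp only [List.mem_map] at h1 h2
  obtain ⟨x, _, rfl⟩ := h1
  obtain ⟨y, _, h⟩ := h2
  simp only [Prod.mk.injEq] at h
  exact hab h.1.symm

theorem mem_bid {E : List (ℕ × ℕ)} {e : ℕ × ℕ} : e ∈ bid E ↔
    ∃ f ∈ E, e = (3 * f.1, 3 * f.2) ∨ e = (3 * f.2, 3 * f.1) := by
  simp [bid]

theorem bid_append (E F : List (ℕ × ℕ)) : bid (E ++ F) = bid E ++ bid F := by
  simp [bid]

theorem nodup_bid {V : List ℕ} {E : List (ℕ × ℕ)} (h : IsGraph V E) : (bid E).Nodup := by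
  unfold bid
  rw [List.nodup_flatMap]
  refine ⟨fun e he => ?_, ?_⟩
  · have := (h.2.1 e he).2.2
    simp only [List.nodup_cons, List.mem_cons, Prod.mk.injEq, List.not_mem_nil, or_false,
      not_false_eq_true, List.nodup_nil, and_true]
    omega
  · refine (List.pairwise_map.1 h.2.2).imp (fun {a b} hab => ?_)
    intro e h1 h2
    simp only [List.mem_cons, List.not_mem_nil, or_false] at h1 h2
    apply hab
    rw [Sym2.eq_iff]
    rcases h1 with rfl | rfl <;> simp only [Prod.mk.injEq] at h2 <;> omega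

theorem isDigraph_dred {V : List ℕ} {R B : List (ℕ × ℕ)} (h : IsGraph V (R ++ B)) (N s t : ℕ) :
    IsDigraph (dV V N) ((heavy (dV V N) s t ++ bid R) ++ bid B) := by
  rw [List.append_assoc, ← bid_append]
  refine ⟨nodup_dV h.1 N, ?_, ?_⟩
  · intro e he
    rcases List.mem_append.1 he with he | he
    · rw [mem_heavy] at he
      exact ⟨he.1, he.2.1, he.2.2.1⟩
    · obtain ⟨f, hf, he⟩ := mem_bid.1 he
      obtain ⟨h1, h2, h3⟩ := h.2.1 f hf
      have h4 : 3 * f.1 ∈ dV V N := mem_dV.2 (Or.inl ⟨_, h1, rfl⟩)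
      have h5 : 3 * f.2 ∈ dV V N := mem_dV.2 (Or.inl ⟨_, h2, rfl⟩)
      rcases he with rfl | rfl
      · exact ⟨h4, h5, by simp only; omega⟩
      · exact ⟨h5, h4, by simp only; omega⟩
  · rw [List.nodup_append]
    refine ⟨nodup_heavy (nodup_dV h.1 N) s t, nodup_bid h, ?_⟩
    rintro a ha b hb rfl
    rw [mem_heavy] at ha
    obtain ⟨f, -, he⟩ := mem_bid.1 hb
    apply ha.2.2.2.2
    rcases he with rfl | rfl <;> simp

theorem outSize_append (E F : List (ℕ × ℕ)) (X : Finset ℕ) :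
    outSize (E ++ F) X = outSize E X + outSize F X := by
  simp [outSize]

theorem outSize_bid (E : List (ℕ × ℕ)) (X Y : Finset ℕ)
    (h : ∀ e ∈ E, (3 * e.1 ∈ X ↔ e.1 ∈ Y) ∧ (3 * e.2 ∈ X ↔ e.2 ∈ Y)) :
    outSize (bid E) X = cutSize E Y := by
  induction E with
  | nil => simp [bid, outSize, cutSize]
  | cons e E ih =>
    have ih' := ih (fun f hf => h f (List.mem_cons_of_mem _ hf))
    obtain ⟨h1, h2⟩ := h e List.mem_cons_self
    have h3 : bid (e :: E) = [(3 * e.1, 3 * e.2), (3 * e.2, 3 * e.1)] ++ bid E := by simp [bid]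
    have h4 : cutSize (e :: E) Y = cutSize [e] Y + cutSize E Y := cutSize_append [e] E Y
    rw [h3, outSize_append, ih', h4]
    congr 1
    by_cases a : e.1 ∈ Y <;> by_cases b : e.2 ∈ Y <;> simp_all [outSize, cutSize]

theorem le_outSize {A : List (ℕ × ℕ)} {X : Finset ℕ} (S : Finset ℕ) (f : ℕ → ℕ × ℕ)
    (hinj : Set.InjOn f S) (hf : ∀ i ∈ S, f i ∈ A ∧ (f i).1 ∈ X ∧ (f i).2 ∉ X) :
    S.card ≤ outSize A X := by
  unfold outSize
  rw [List.countP_eq_length_filter, ← Finset.card_image_of_injOn hinj]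
  refine le_trans (Finset.card_le_card ?_) (List.toFinset_card_le _)
  intro e he
  obtain ⟨i, hi, rfl⟩ := Finset.mem_image.1 he
  simp only [List.mem_toFinset, List.mem_filter, Bool.and_eq_true, decide_eq_true_eq]
  exact hf i hi

theorem forced {V : List ℕ} {N s t : ℕ} (hs : s ∈ V) (ht : t ∈ V) {X : Finset ℕ}
    (hXV : ∀ v ∈ X, v ∈ dV V N) (hne : X.Nonempty) (hpr : ∃ v ∈ dV V N, v ∉ X)
    (hlt : outSize (heavy (dV V N) s t) X + 2 ≤ N) : 3 * s ∈ X ∧ 3 * t ∉ X := by
  have mS : ∀ i < N, 3 * i + 1 ∈ dV V N := fun i hi => mem_dV.2 (Or.inr (Or.inl ⟨i, hi, rfl⟩))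
  have mT : ∀ i < N, 3 * i + 2 ∈ dV V N := fun i hi => mem_dV.2 (Or.inr (Or.inr ⟨i, hi, rfl⟩))
  have hS : ∀ j < N, 3 * j + 1 ∈ X := by
    intro j hj
    by_contra hjX
    obtain ⟨x, hx⟩ := hne
    have := le_outSize (A := heavy (dV V N) s t) (X := X) ((Finset.range N).erase j)
      (fun i => if 3 * i + 1 ∈ X then (3 * i + 1, 3 * j + 1) else (x, 3 * i + 1)) ?_ ?_
    · rw [Finset.card_erase_of_mem (Finset.mem_range.2 hj), Finset.card_range] at this
      omega
    · intro a ha b hb hab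
      simp only [Finset.coe_erase, Finset.coe_range, Set.mem_sdiff, Set.mem_Iio,
        Set.mem_singleton_iff] at ha hb
      simp only at hab
      split_ifs at hab <;> simp only [Prod.mk.injEq] at hab <;> omega
    · intro i hi
      simp only [Finset.mem_erase, Finset.mem_range] at hi
      split_ifs with h
      · refine ⟨mem_heavy.2 ⟨mS i hi.2, mS j hj, ?_, ?_, ?_⟩, h, hjX⟩ <;> simp only <;> omega
      · refine ⟨mem_heavy.2 ⟨hXV x hx, mS i hi.2, ?_, ?_, ?_⟩, hx, h⟩
        · intro h'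
          simp only at h'
          exact h (h' ▸ hx)
        · simp only; omega
        · simp only; omega
  have hT : ∀ j < N, 3 * j + 2 ∉ X := by
    intro j hj hjX
    obtain ⟨y, hy, hyX⟩ := hpr
    have := le_outSize (A := heavy (dV V N) s t) (X := X) ((Finset.range N).erase j)
      (fun i => if 3 * i + 2 ∈ X then (3 * i + 2, y) else (3 * j + 2, 3 * i + 2)) ?_ ?_
    · rw [Finset.card_erase_of_mem (Finset.mem_range.2 hj), Finset.card_range] at this
      omega
    · intro a ha b hb hab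
      simp only [Finset.coe_erase, Finset.coe_range, Set.mem_sdiff, Set.mem_Iio,
        Set.mem_singleton_iff] at ha hb
      simp only at hab
      split_ifs at hab <;> simp only [Prod.mk.injEq] at hab <;> omega
    · intro i hi
      simp only [Finset.mem_erase, Finset.mem_range] at hi
      split_ifs with h
      · refine ⟨mem_heavy.2 ⟨mT i hi.2, hy, ?_, ?_, ?_⟩, h, hyX⟩
        · intro h'
          simp only at h'
          exact hyX (h' ▸ h)
        · simp only; omega
        · simp only; omega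
      · refine ⟨mem_heavy.2 ⟨mT j hj, mT i hi.2, ?_, ?_, ?_⟩, hjX, h⟩ <;> simp only <;> omega
  constructor
  · by_contra hsX
    have := le_outSize (A := heavy (dV V N) s t) (X := X) (Finset.range N)
      (fun i => (3 * i + 1, 3 * s)) ?_ ?_
    · rw [Finset.card_range] at this
      omega
    · intro a _ b _ hab
      simp only [Prod.mk.injEq] at hab
      omega
    · intro i hi
      rw [Finset.mem_range] at hi
      refine ⟨mem_heavy.2 ⟨mS i hi, mem_dV.2 (Or.inl ⟨s, hs, rfl⟩), ?_, Or.inl (Or.inr rfl), ?_⟩,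
        hS i hi, hsX⟩ <;> simp only <;> omega
  · intro htX
    have := le_outSize (A := heavy (dV V N) s t) (X := X) (Finset.range N)
      (fun i => (3 * t, 3 * i + 2)) ?_ ?_
    · rw [Finset.card_range] at this
      omega
    · intro a _ b _ hab
      simp only [Prod.mk.injEq] at hab
      omega
    · intro i hi
      rw [Finset.mem_range] at hi
      refine ⟨mem_heavy.2 ⟨mem_dV.2 (Or.inl ⟨t, ht, rfl⟩), mT i hi, ?_, Or.inr (Or.inr rfl), ?_⟩,
        htX, hT i hi⟩ <;> simp only <;> omega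

theorem dred_correct (I : Inst) : RedBlueCut I ↔ DirRedBlueCut (dred I) := by
  unfold dred
  cases hval : validB I with
  | false =>
    simp only [cond_false]
    constructor
    · rintro ⟨h1, h2, h3, h4, -⟩
      rw [(validB_iff I).2 ⟨h1, h2, h3, h4⟩] at hval
      exact absurd hval (by simp)
    · rintro ⟨-, X, -, -, ⟨v, hv, -⟩, -⟩
      simp [DInst.V] at hv
  | true =>
    simp only [cond_true]
    obtain ⟨hG, hs, ht, hst⟩ := (validB_iff I).1 hval
    set N := I.red.length + 2 with hN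
    constructor
    · rintro ⟨-, -, -, -, Y, hYV, hsY, htY, hr, hb⟩
      refine ⟨isDigraph_dred hG N I.s I.t, ?_⟩
      let X : Finset ℕ := Y.image (fun v => 3 * v) ∪ (Finset.range N).image (fun i => 3 * i + 1)
      have hX : ∀ x, x ∈ X ↔ (∃ v ∈ Y, 3 * v = x) ∨ ∃ i < N, 3 * i + 1 = x := by
        intro x
        simp only [X, Finset.mem_union, Finset.mem_image, Finset.mem_range]
      have h3 : ∀ v, 3 * v ∈ X ↔ v ∈ Y := by
        intro v
        rw [hX]
        constructor
        · rintro (⟨w, hw, h⟩ | ⟨i, _, h⟩)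
          · have : w = v := by omega
            exact this ▸ hw
          · omega
        · intro h
          exact Or.inl ⟨v, h, rfl⟩
      refine ⟨X, ?_, ⟨3 * I.s, (h3 _).2 hsY⟩,
        ⟨3 * I.t, mem_dV.2 (Or.inl ⟨_, ht, rfl⟩), fun h => htY ((h3 _).1 h)⟩, ?_, ?_⟩
      · intro x hx
        rcases (hX x).1 hx with ⟨v, hv, rfl⟩ | ⟨i, hi, rfl⟩
        · exact mem_dV.2 (Or.inl ⟨v, hYV v hv, rfl⟩)
        · exact mem_dV.2 (Or.inr (Or.inl ⟨i, hi, rfl⟩))
      · change outSize (heavy (dV I.V N) I.s I.t ++ bid I.red) X ≤ min I.r I.red.length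
        rw [outSize_append, outSize_bid I.red X Y (fun e _ => ⟨h3 _, h3 _⟩)]
        have h0 : outSize (heavy (dV I.V N) I.s I.t) X = 0 := by
          unfold outSize
          rw [List.countP_eq_zero]
          intro e he
          rw [mem_heavy] at he
          obtain ⟨h4, h5, h6, h7, h8⟩ := he
          simp only [Bool.and_eq_true, decide_eq_true_eq, not_and, not_not]
          intro h9
          rcases h7 with (h | h) | (h | h)
          · rcases mem_dV.1 h5 with ⟨v, _, hv⟩ | ⟨i, hi, hv⟩ | ⟨i, hi, hv⟩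
            · omega
            · exact (hX _).2 (Or.inr ⟨i, hi, hv⟩)
            · omega
          · rw [h]; exact (h3 _).2 hsY
          · rcases (hX _).1 h9 with ⟨v, _, hv⟩ | ⟨i, hi, hv⟩ <;> omega
          · rw [h] at h9
            exact absurd ((h3 _).1 h9) htY
        have h1 : cutSize I.red Y ≤ I.red.length := List.countP_le_length
        rw [h0]
        omega
      · change outSize (bid I.blue) X ≤ I.b
        rw [outSize_bid I.blue X Y (fun e _ => ⟨h3 _, h3 _⟩)]
        exact hb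
    · rintro ⟨-, X, hXV, hne, hpr, hr, hb⟩
      change outSize (heavy (dV I.V N) I.s I.t ++ bid I.red) X ≤ min I.r I.red.length at hr
      change outSize (bid I.blue) X ≤ I.b at hb
      rw [outSize_append] at hr
      obtain ⟨h1, h2⟩ := forced hs ht hXV hne hpr (by omega)
      have hY : ∀ v ∈ I.V, (3 * v ∈ X ↔ v ∈ I.V.toFinset.filter (fun v => 3 * v ∈ X)) := by
        intro v hv
        simp [hv]
      rw [outSize_bid I.red X (I.V.toFinset.filter (fun v => 3 * v ∈ X)) (fun e he => by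
        have := hG.2.1 e (List.mem_append_left _ he)
        exact ⟨hY _ this.1, hY _ this.2.1⟩)] at hr
      rw [outSize_bid I.blue X (I.V.toFinset.filter (fun v => 3 * v ∈ X)) (fun e he => by
        have := hG.2.1 e (List.mem_append_right _ he)
        exact ⟨hY _ this.1, hY _ this.2.1⟩)] at hb
      refine ⟨hG, hs, ht, hst, _, ?_, (hY _ hs).1 h1, fun h => h2 ((hY _ ht).2 h), by omega, hb⟩
      intro v hv
      exact List.mem_toFinset.1 (Finset.mem_filter.1 hv).1

theorem npHard_dirRedBlueCut : NPHardP DirRedBlueCut :=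
  (hardI_redBlueCut.trans dred_poly dred_correct).toNPHardP

end Pool.Agent.H379Z.RB
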