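import Pool.Agent.H379Z.RB.DDefs
import Pool.Agent.H379Z.RB.Mem

/-!
# The directed red-blue cut problem is in NP
-/

namespace Pool.Agent.H379Z.RB

open Pool.Agent.NPC

def ndA (l : List (ℕ × ℕ)) : Bool :=
  l.all (fun x => decide ((l.filter (fun y => decide (y = x))).length ≤ 1))

theorem ndA_iff (l : List (ℕ × ℕ)) : ndA l = true ↔ l.Nodup := by
  rw [List.nodup_iff_count_le_one]
  unfold ndA
  simp only [List.all_eq_true, decide_eq_true_eq]
  have h : ∀ x, (l.filter (fun y => decide (y = x))).length = l.count x := by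
    intro x
    rw [List.count_eq_countP, List.countP_eq_length_filter]
    congr 1
    apply List.filter_congr
    intro y _
    simp only [beq_eq_decide]
  simp only [h]
  constructor
  · intro h1 x
    by_cases hx : x ∈ l
    · exact h1 x hx
    · rw [List.count_eq_zero_of_not_mem hx]; omega
  · intro h1 x _
    exact h1 x

def outL (E : List (ℕ × ℕ)) (W : List ℕ) : ℕ :=
  (E.filter (fun e => decide (e.1 ∈ W) && !decide (e.2 ∈ W))).length

theorem outL_eq (E : List (ℕ × ℕ)) (W : List ℕ) : outL E W = outSize E W.toFinset := by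
  unfold outL outSize
  rw [List.countP_eq_length_filter]
  simp only [List.mem_toFinset, decide_not]

/-- the verifier -/
def dchk (q : DInst × List ℕ) : Bool :=
  (ndB q.1.V && (okE q.1.V (q.1.red ++ q.1.blue) && ndA (q.1.red ++ q.1.blue))) &&
  ((q.2.all (fun v => decide (v ∈ q.1.V)) &&
    (!q.2.isEmpty && q.1.V.any (fun v => !decide (v ∈ q.2)))) &&
  (decide (outL q.1.red q.2 ≤ q.1.r) && decide (outL q.1.blue q.2 ≤ q.1.b)))

section

variable {α : Type} [TEnc α]

theorem ndA_poly {l : α → List (ℕ × ℕ)} (hl : NPC.Poly l) : NPC.Poly (fun a => ndA (l a)) :=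
  Poly.all (p := fun a x => decide (((l a).filter (fun y => decide (y = x))).length ≤ 1)) hl
    (Poly.decide_le (Poly.length (Poly.filter (l := fun q : α × (ℕ × ℕ) => l q.1)
      (p := fun (q : α × (ℕ × ℕ)) y => decide (y = q.2)) (hl.comp (Poly.fst Poly.id))
      (Poly.decide_eq (Poly.snd Poly.id) (Poly.snd (Poly.fst Poly.id))))) (NPC.Poly.const 1))

theorem outL_poly {W : α → List ℕ} {l : α → List (ℕ × ℕ)} (hl : NPC.Poly l) (hW : NPC.Poly W) :
    NPC.Poly (fun a => outL (l a) (W a)) :=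
  Poly.length (Poly.filter (p := fun a (e : ℕ × ℕ) =>
      decide (e.1 ∈ W a) && !decide (e.2 ∈ W a)) hl
    (Poly.and (Poly.decide_mem (Poly.fst (Poly.snd Poly.id)) (hW.comp (Poly.fst Poly.id)))
      (Poly.not (Poly.decide_mem (Poly.snd (Poly.snd Poly.id)) (hW.comp (Poly.fst Poly.id))))))

end

theorem dchk_poly : NPC.Poly dchk := by
  have hV : NPC.Poly (fun q : DInst × List ℕ => q.1.V) := Poly.fst (Poly.fst (Poly.fst Poly.id))
  have hR : NPC.Poly (fun q : DInst × List ℕ => q.1.red) :=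
    Poly.fst (Poly.snd (Poly.fst (Poly.fst Poly.id)))
  have hB : NPC.Poly (fun q : DInst × List ℕ => q.1.blue) :=
    Poly.snd (Poly.snd (Poly.fst (Poly.fst Poly.id)))
  have hr : NPC.Poly (fun q : DInst × List ℕ => q.1.r) := Poly.fst (Poly.snd (Poly.fst Poly.id))
  have hb : NPC.Poly (fun q : DInst × List ℕ => q.1.b) := Poly.snd (Poly.snd (Poly.fst Poly.id))
  have hW : NPC.Poly (fun q : DInst × List ℕ => q.2) := Poly.snd Poly.id
  have hE := Poly.append hR hB
  refine Poly.and (Poly.and (ndB_poly hV) (Poly.and (okE_poly hV hE) (ndA_poly hE)))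
    (Poly.and (Poly.and ?_ (Poly.and (Poly.not (Poly.isEmpty hW)) ?_))
      (Poly.and (Poly.decide_le (outL_poly hR hW) hr) (Poly.decide_le (outL_poly hB hW) hb)))
  · exact Poly.all (p := fun (q : DInst × List ℕ) v => decide (v ∈ q.1.V)) hW
      (Poly.decide_mem (Poly.snd Poly.id) (hV.comp (Poly.fst Poly.id)))
  · exact Poly.any (p := fun (q : DInst × List ℕ) v => !decide (v ∈ q.2)) hV
      (Poly.not (Poly.decide_mem (Poly.snd Poly.id) (hW.comp (Poly.fst Poly.id))))

theorem dchk_iff (I : DInst) (W : List ℕ) : dchk (I, W) = true ↔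
    IsDigraph I.V (I.red ++ I.blue) ∧
      ((∀ v ∈ W, v ∈ I.V) ∧ W ≠ [] ∧ ∃ v ∈ I.V, v ∉ W) ∧
      outSize I.red W.toFinset ≤ I.r ∧ outSize I.blue W.toFinset ≤ I.b := by
  unfold dchk IsDigraph
  simp only [Bool.and_eq_true, ndB_iff, ndA_iff, outL_eq, okE, List.all_eq_true,
    decide_eq_true_eq, Bool.not_eq_true', decide_eq_false_iff_not, ne_eq, List.any_eq_true,
    List.isEmpty_eq_false_iff]

theorem inNP_dirRedBlueCut : InNPP DirRedBlueCut := by
  refine inNPP_of dchk_poly Polynomial.X (fun I => ?_)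
  simp only [Polynomial.eval_X, dchk_iff]
  constructor
  · rintro ⟨hG, X, hXV, ⟨x, hx⟩, ⟨y, hy, hyX⟩, h3, h4⟩
    have hX : (I.V.filter (fun v => decide (v ∈ X))).toFinset = X := by
      ext v
      simp only [List.mem_toFinset, List.mem_filter, decide_eq_true_eq]
      exact ⟨fun h => h.2, fun h => ⟨hXV v h, h⟩⟩
    refine ⟨I.V.filter (fun v => decide (v ∈ X)), ?_, hG, ⟨?_, ?_, y, hy, ?_⟩, ?_, ?_⟩
    · refine (sz_filter_le _ _).trans ?_
      obtain ⟨⟨V, R, B⟩, c⟩ := I
      simp only [DInst.V, sz_pair]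
      omega
    · intro v hv
      exact (List.mem_filter.1 hv).1
    · exact List.ne_nil_of_mem (List.mem_filter.2 ⟨hXV x hx, by simpa using hx⟩)
    · intro h
      exact hyX (by simpa using (List.mem_filter.1 h).2)
    · rw [hX]; exact h3
    · rw [hX]; exact h4
  · rintro ⟨W, -, hG, ⟨h1, h2, y, hy, hyW⟩, h4, h5⟩
    obtain ⟨x, hx⟩ := List.exists_mem_of_ne_nil W h2
    exact ⟨hG, W.toFinset, fun v hv => h1 v (List.mem_toFinset.1 hv),
      ⟨x, List.mem_toFinset.2 hx⟩, ⟨y, hy, fun h => hyW (List.mem_toFinset.1 h)⟩, h4, h5⟩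

end Pool.Agent.H379Z.RB
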