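import Pool.Agent.NPC.Defs
import Pool.Agent.H634R2.GraphDefs

/-!
# The unweighted red-blue `s`-`t` cut problem in undirected graphs
-/

namespace Pool.Agent.H379Z.RB

open Pool.Agent.NPC Pool.Agent.NPC.H634R2

/-- An instance: the list of vertices, the list of red edges and the list of blue edges; the
terminals `s` and `t`; the budgets `r` and `b`. -/
abbrev Inst : Type := (List ℕ × List (ℕ × ℕ) × List (ℕ × ℕ)) × (ℕ × ℕ) × (ℕ × ℕ)

/-- The vertices. -/
def Inst.V (I : Inst) : List ℕ := I.1.1
/-- The red edges. -/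
def Inst.red (I : Inst) : List (ℕ × ℕ) := I.1.2.1
/-- The blue edges. -/
def Inst.blue (I : Inst) : List (ℕ × ℕ) := I.1.2.2
/-- The terminal `s`. -/
def Inst.s (I : Inst) : ℕ := I.2.1.1
/-- The terminal `t`. -/
def Inst.t (I : Inst) : ℕ := I.2.1.2
/-- The budget for red edges. -/
def Inst.r (I : Inst) : ℕ := I.2.2.1
/-- The budget for blue edges. -/
def Inst.b (I : Inst) : ℕ := I.2.2.2

/-- The number of edges in the list `E` with exactly one endpoint in `X`. -/
def cutSize (E : List (ℕ × ℕ)) (X : Finset ℕ) : ℕ :=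
  E.countP (fun e => xor (decide (e.1 ∈ X)) (decide (e.2 ∈ X)))

/-- The red and the blue edges together form a finite simple undirected graph on the listed
vertices (so that every edge has exactly one colour), `s` and `t` are distinct vertices, and for
some set `X` of vertices with `s ∈ X` and `t ∉ X`, the cut `δ(X)` contains at most `r` red and at
most `b` blue edges. -/
def RedBlueCut (I : Inst) : Prop :=
  IsGraph I.V (I.red ++ I.blue) ∧ I.s ∈ I.V ∧ I.t ∈ I.V ∧ I.s ≠ I.t ∧
    ∃ X : Finset ℕ, (∀ v ∈ X, v ∈ I.V) ∧ I.s ∈ X ∧ I.t ∉ X ∧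
      cutSize I.red X ≤ I.r ∧ cutSize I.blue X ≤ I.b

end Pool.Agent.H379Z.RB
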